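import Pool.Agent.H85.AK.Stmt2

/-!
# A finitely generated abelian group is a free group times a finite one
-/

set_option autoImplicit false

open scoped DirectSum

namespace Pool.Agent.H30.AKSplit

/-- the rank of a product with a finite group -/
theorem finrank_prod_fin (n : ℕ) (D : Type) [AddCommGroup D] [Finite D] :
    Module.finrank ℤ ((Fin n →₀ ℤ) × D) = Module.finrank ℤ (Fin n →₀ ℤ) := by
  have h2 : Module.rank ℤ (LinearMap.ker (LinearMap.fst ℤ (Fin n →₀ ℤ) D)) = 0 := by
    rw [Module.rank_eq_zero_iff_isTorsion]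
    intro x
    have hc : (Nat.card D : ℤ) ≠ 0 := by
      exact_mod_cast (Nat.card_pos (α := D)).ne'
    refine ⟨⟨(Nat.card D : ℤ), mem_nonZeroDivisors_of_ne_zero hc⟩, ?_⟩
    apply Subtype.ext
    show (Nat.card D : ℤ) • (x : (Fin n →₀ ℤ) × D) = 0
    have hx : (x : (Fin n →₀ ℤ) × D).1 = 0 := x.2
    apply Prod.ext
    · show (Nat.card D : ℤ) • (x : (Fin n →₀ ℤ) × D).1 = 0
      rw [hx, smul_zero]
    · show (Nat.card D : ℤ) • (x : (Fin n →₀ ℤ) × D).2 = 0
      rw [natCast_zsmul]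
      exact card_nsmul_eq_zero'
  have h := LinearMap.rank_eq_of_surjective (f := LinearMap.fst ℤ (Fin n →₀ ℤ) D)
    LinearMap.fst_surjective
  rw [h2, add_zero] at h
  unfold Module.finrank
  rw [h]

theorem finite_sum (ι : Type) [Fintype ι] (p : ι → ℕ) (hp : ∀ i, Nat.Prime (p i)) (e : ι → ℕ) :
    Finite (⨁ i : ι, ZMod (p i ^ e i)) := by
  classical
  have : ∀ i, NeZero (p i ^ e i) := fun i => ⟨pow_ne_zero _ (hp i).ne_zero⟩
  have : ∀ i, Finite (ZMod (p i ^ e i)) := fun i => inferInstance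
  exact Finite.of_equiv _ (DirectSum.addEquivProd fun i : ι => ZMod (p i ^ e i)).symm.toEquiv

theorem s_split : Pool.Agent.H85.AK.Stmt2.S_split := by
  classical
  intro G _ _
  obtain ⟨n, ι, fι, p, hp, e, ⟨f⟩⟩ := AddCommGroup.equiv_free_prod_directSum_zmod (Additive G)
  have hfin : Finite (⨁ i : ι, ZMod (p i ^ e i)) := finite_sum ι p hp e
  have hT := (Set.finite_univ (α := ⨁ i : ι, ZMod (p i ^ e i)))
  refine ⟨(Fin n →₀ ℤ), inferInstance, inferInstance, inferInstance,
    fun m => (f.symm (m, 0)).toMul, hT.toFinset.image fun t => (f.symm (0, t)).toMul,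
    ?_, ?_, ?_, ?_, ?_⟩
  · rw [f.toIntLinearEquiv.finrank_eq, finrank_prod_fin n]
  · show (f.symm 0).toMul = 1
    rw [map_zero]
    rfl
  · intro m k
    show (f.symm (m + k, 0)).toMul = (f.symm (m, 0)).toMul * (f.symm (k, 0)).toMul
    rw [← toMul_add, ← map_add, Prod.mk_add_mk, add_zero]
  · intro m k hmk
    have h1 : f.symm (m, 0) = f.symm (k, 0) := hmk
    have h2 := f.symm.injective h1
    exact (Prod.ext_iff.1 h2).1
  · intro x
    refine ⟨(f.symm (0, (f (Additive.ofMul x)).2)).toMul, Finset.mem_image_of_mem _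
      (hT.mem_toFinset.2 (Set.mem_univ _)), (f (Additive.ofMul x)).1, ?_⟩
    show x = (f.symm (0, (f (Additive.ofMul x)).2)).toMul *
      (f.symm ((f (Additive.ofMul x)).1, 0)).toMul
    rw [← toMul_add, ← map_add, Prod.mk_add_mk, add_zero, zero_add, Prod.mk.eta,
      AddEquiv.symm_apply_apply, toMul_ofMul]

end Pool.Agent.H30.AKSplit
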