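import Pool.Agent.H867.FT.Gen

set_option autoImplicit false

/-! # A basis `1, z_1, .., z_m` with all `z_j` in the maximal ideal (FTG BAS) -/

namespace Pool.Agent.H30.FT867

open Pool.Agent.H867.FT

/-- some coordinate of `1` is a unit -/
theorem exists_unit_coeff (P R : Type) [CommRing P] [IsLocalRing P] [CommRing R] [Nontrivial R]
    [Algebra P R] [Module.Finite P R] {ι : Type} [Fintype ι] (e : Module.Basis ι P R) :
    ∃ i, IsUnit (e.repr 1 i) := by
  by_contra h
  push Not at h
  have hm : ∀ i, e.repr 1 i ∈ IsLocalRing.maximalIdeal P := fun i =>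
    (IsLocalRing.mem_maximalIdeal _).mpr (h i)
  have htop : (⊤ : Submodule P R) ≤ IsLocalRing.maximalIdeal P • ⊤ := by
    intro r _
    have hr : r = ∑ i, e.repr 1 i • (e i * r) := by
      have h1 : (∑ i, e.repr 1 i • e i) * r = r := by rw [e.sum_repr, one_mul]
      rw [Finset.sum_mul] at h1
      exact h1.symm.trans (Finset.sum_congr rfl fun i _ => smul_mul_assoc _ _ _)
    rw [hr]
    exact Submodule.sum_mem _ fun i _ => Submodule.smul_mem_smul (hm i) Submodule.mem_top
  have h2 := Submodule.eq_bot_of_le_smul_of_le_jacobson_bot (IsLocalRing.maximalIdeal P) ⊤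
    Module.Finite.fg_top htop (IsLocalRing.maximalIdeal_le_jacobson _)
  exact absurd h2 top_ne_bot

theorem bas : S_BAS := by
  intro P R _ _ _ _ _ _ _ _ _ _ hsurj
  obtain ⟨m, hm⟩ : ∃ m, Module.finrank P R = m + 1 :=
    ⟨Module.finrank P R - 1, by
      have : 0 < Module.finrank P R := Module.finrank_pos
      omega⟩
  let e0 : Module.Basis (Fin (m + 1)) P R := (Module.finBasis P R).reindex (finCongr hm)
  obtain ⟨i0, hi0⟩ := exists_unit_coeff P R e0
  let e : Module.Basis (Fin (m + 1)) P R := e0.reindex (Equiv.swap i0 0)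
  have he0 : IsUnit (e.repr 1 0) := by
    have h1 : e.repr 1 0 = e0.repr 1 i0 := by
      show (e0.reindex (Equiv.swap i0 0)).repr 1 0 = _
      rw [Module.Basis.repr_reindex_apply, Equiv.symm_swap, Equiv.swap_apply_right]
    rw [h1]
    exact hi0
  choose g hg using hsurj
  let v : Fin (m + 1) → R := Fin.cons 1 fun j : Fin m => e j.succ - algebraMap P R (g (e j.succ))
  have hv0 : v 0 = 1 := rfl
  have hvs : ∀ j : Fin m, v j.succ = e j.succ - algebraMap P R (g (e j.succ)) := fun j => rfl
  have h1 : (1 : R) ∈ Submodule.span P (Set.range v) := Submodule.subset_span ⟨0, hv0⟩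
  have h2 : ∀ j : Fin m, e j.succ ∈ Submodule.span P (Set.range v) := by
    intro j
    have h3 : e j.succ = v j.succ + g (e j.succ) • (1 : R) := by
      rw [hvs, Algebra.smul_def, mul_one, sub_add_cancel]
    rw [h3]
    exact Submodule.add_mem _ (Submodule.subset_span ⟨_, rfl⟩) (Submodule.smul_mem _ _ h1)
  have h3 : e 0 ∈ Submodule.span P (Set.range v) := by
    have h4 : e.repr 1 0 • e 0 ∈ Submodule.span P (Set.range v) := by
      have h5 : e.repr 1 0 • e 0 = 1 - ∑ j : Fin m, e.repr 1 j.succ • e j.succ := by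
        have h6 := e.sum_repr 1
        rw [Fin.sum_univ_succ] at h6
        rw [eq_sub_iff_add_eq]
        exact h6
      rw [h5]
      exact Submodule.sub_mem _ h1 (Submodule.sum_mem _ fun j _ => Submodule.smul_mem _ _ (h2 j))
    obtain ⟨u, hu⟩ := he0
    have h7 : e 0 = (↑u⁻¹ : P) • (e.repr 1 0 • e 0) := by
      rw [← hu, smul_smul, Units.inv_mul, one_smul]
    rw [h7]
    exact Submodule.smul_mem _ _ h4
  have hspan : ⊤ ≤ Submodule.span P (Set.range v) := by
    rw [← e.span_eq, Submodule.span_le]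
    rintro _ ⟨j, rfl⟩
    refine Fin.cases ?_ (fun j => ?_) j
    · exact h3
    · exact h2 j
  have hli : LinearIndependent P v :=
    linearIndependent_of_top_le_span_of_card_eq_finrank hspan (by rw [Fintype.card_fin, hm])
  refine ⟨m, Module.Basis.mk hli hspan, ?_, fun j => ?_⟩
  · rw [Module.Basis.mk_apply, hv0]
  · rw [Module.Basis.mk_apply, hvs]
    exact hg _

end Pool.Agent.H30.FT867
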