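import Pool.Agent.H867.FT.Gen4

set_option autoImplicit false

/-!
# Canonical fractional ideals are unique up to scaling (helper30)
-/

namespace Pool.Agent.H30.FT867UNI

open Pool.Agent.H867.FT

theorem one_div_scale {R K : Type} [CommRing R] [Field K] [Algebra R K] (μ : K) (hμ : μ ≠ 0)
    (D : Submodule R K) : 1 / (Submodule.span R {μ} * D) = Submodule.span R {μ⁻¹} * (1 / D) := by
  ext x
  rw [Submodule.mem_div_iff_forall_mul_mem, Submodule.mem_span_singleton_mul]
  constructor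
  · intro h
    refine ⟨μ * x, ?_, by rw [← mul_assoc, inv_mul_cancel₀ hμ, one_mul]⟩
    rw [Submodule.mem_div_iff_forall_mul_mem]
    intro y hy
    have h1 := h (μ * y) (Submodule.mem_span_singleton_mul.2 ⟨y, hy, rfl⟩)
    have h2 : μ * x * y = x * (μ * y) := by ring
    rw [h2]
    exact h1
  · rintro ⟨z, hz, rfl⟩ y hy
    rw [Submodule.mem_span_singleton_mul] at hy
    obtain ⟨w, hw, rfl⟩ := hy
    rw [Submodule.mem_div_iff_forall_mul_mem] at hz
    have h2 : μ⁻¹ * z * (μ * w) = z * w := by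
      field_simp
    rw [h2]
    exact hz w hw

theorem pow_scale {R K : Type} [CommRing R] [Field K] [Algebra R K] (μ : K)
    (D : Submodule R K) (n : ℕ) :
    (Submodule.span R {μ} * D) ^ n = Submodule.span R {μ ^ n} * D ^ n := by
  rw [mul_pow, Submodule.span_pow, Set.singleton_pow]

theorem uni : Pool.Agent.H867.FT.S_UNI := by
  intro P R K _ _ _ _ _ _ _ C C' hC0 hC hC' n
  obtain ⟨e, he⟩ := hC
  obtain ⟨e', he'⟩ := hC'
  -- the isomorphism
  obtain ⟨φ, hφ⟩ : ∃ φ : C → C', ∀ y, e' (φ y) = e y :=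
    ⟨fun y => e'.symm (e y), fun y => e'.apply_symm_apply _⟩
  have hφs : Function.Surjective φ := by
    intro z
    refine ⟨e.symm (e' z), ?_⟩
    apply e'.injective
    rw [hφ, e.apply_symm_apply]
  have hφr : ∀ (r : R) (y : C), φ (r • y) = r • φ y := by
    intro r y
    apply e'.injective
    rw [hφ]
    ext s
    rw [he, he', hφ]
  obtain ⟨y₀, hy₀C, hy₀⟩ := C.ne_bot_iff.1 hC0
  have hφ0 : ((φ ⟨y₀, hy₀C⟩ : C') : K) ≠ 0 := by
    intro h
    have h1 : φ ⟨y₀, hy₀C⟩ = 0 := Subtype.ext h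
    have h2 : e ⟨y₀, hy₀C⟩ = 0 := by rw [← hφ, h1, map_zero]
    have h3 : (⟨y₀, hy₀C⟩ : C) = 0 := by
      apply e.injective
      rw [h2, map_zero]
    exact hy₀ (congrArg Subtype.val h3)
  obtain ⟨μ, hμ⟩ : ∃ μ : K, μ = (φ ⟨y₀, hy₀C⟩ : K) / y₀ := ⟨_, rfl⟩
  have hμ0 : μ ≠ 0 := by
    rw [hμ]
    exact div_ne_zero hφ0 hy₀
  have key : ∀ y : C, (φ y : K) = μ * y := by
    intro y
    obtain ⟨s, r, hr, hsr⟩ := IsFractionRing.div_surjective (A := R) ((y : K) / y₀)
    have hr0 : algebraMap R K r ≠ 0 := by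
      intro h
      have h1 : r = 0 := (IsFractionRing.injective R K) (by rw [h, map_zero])
      exact (nonZeroDivisors.ne_zero hr) h1
    have h1 : (r • y : C) = s • (⟨y₀, hy₀C⟩ : C) := by
      apply Subtype.ext
      show r • (y : K) = s • y₀
      rw [Algebra.smul_def, Algebra.smul_def]
      rw [div_eq_div_iff hr0 hy₀] at hsr
      rw [hsr]
      ring
    have h2 := congrArg φ h1
    rw [hφr, hφr] at h2
    have h3 : algebraMap R K r * (φ y : K) = algebraMap R K s * (φ ⟨y₀, hy₀C⟩ : K) := by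
      have h4 := congrArg Subtype.val h2
      rw [← Algebra.smul_def, ← Algebra.smul_def]
      exact h4
    rw [hμ]
    have h5 : (y : K) = algebraMap R K s / algebraMap R K r * y₀ := by
      rw [hsr]
      field_simp
    rw [h5]
    field_simp
    rw [mul_comm] at h3
    rw [h3]
    ring
  have hCC : C' = Submodule.span R {μ} * C := by
    ext z
    rw [Submodule.mem_span_singleton_mul]
    constructor
    · intro hz
      obtain ⟨y, hy⟩ := hφs ⟨z, hz⟩
      exact ⟨y, y.2, by rw [← key, hy]⟩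
    · rintro ⟨y, hy, rfl⟩
      rw [← key ⟨y, hy⟩]
      exact (φ ⟨y, hy⟩).2
  rintro ⟨t, ht⟩
  have hμn : μ ^ n ≠ 0 := pow_ne_zero _ hμ0
  have h1 : 1 / (1 / C' ^ n) = Submodule.span R {μ ^ n} * (1 / (1 / C ^ n)) := by
    rw [hCC, pow_scale, one_div_scale _ hμn, one_div_scale _ (inv_ne_zero hμn), inv_inv]
  refine ⟨(μ ^ n)⁻¹ * t, ?_⟩
  have h2 : Submodule.span R {(μ ^ n)⁻¹ * t} = Submodule.span R {(μ ^ n)⁻¹} * Submodule.span R {t} := by
    rw [Submodule.span_mul_span, Set.singleton_mul_singleton]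
  rw [h2, ← ht, h1, ← mul_assoc, Submodule.span_mul_span, Set.singleton_mul_singleton,
    inv_mul_cancel₀ hμn, ← Submodule.one_eq_span, one_mul]

end Pool.Agent.H30.FT867UNI
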