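import Pool.Agent.H440.OZ.StmNum

/-!
Project OZ, leaf N: the closed form and the numerical values of the constant.
-/

set_option autoImplicit false

open MeasureTheory Set Complex

namespace Pool.Agent.H30.OZ

open H385 H385.WinC Pool.Agent.H440.OZ

theorem num1_main : S_num1 := by
  intro h γ hh hγ0 _
  have hγ : γ ≠ 0 := hγ0.ne'
  have hh0 : 0 < h := by linarith
  have hx0 : 0 ≤ 1 / h := by positivity
  have hx1 : 1 / h ≤ 1 := by
    rw [div_le_one hh0]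
    exact hh
  obtain ⟨x, hx⟩ : ∃ x : ℝ, x = 1 / h := ⟨_, rfl⟩
  obtain ⟨K, hK⟩ : ∃ K : ℝ, K = (γ / (2 * Real.sin (γ / 2))) ^ 2 / 2 := ⟨_, rfl⟩
  have hRw : ∀ α : ℝ, 0 ≤ α → α ≤ 1 → Rw γ α = nm γ α * K := by
    intro α hα hα1
    unfold Rw nm
    rw [abs_of_nonneg hα, if_pos hα1, hK]
    ring
  have hc : Continuous (fun α : ℝ => min α (1 / h) * (nm γ α * K)) := by
    have := nm_cont γ
    fun_prop
  have h1 : ∫ α in (0 : ℝ)..1, min α (1 / h) * Rw γ α =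
      ∫ α in (0 : ℝ)..1, min α (1 / h) * (nm γ α * K) := by
    apply intervalIntegral.integral_congr
    intro α hα
    rw [Set.uIcc_of_le zero_le_one] at hα
    simp only
    rw [hRw α hα.1 hα.2]
  have h2 : ∫ α in (0 : ℝ)..1, min α (1 / h) * (nm γ α * K) =
      (∫ α in (0 : ℝ)..(1 / h), min α (1 / h) * (nm γ α * K)) +
      ∫ α in (1 / h : ℝ)..1, min α (1 / h) * (nm γ α * K) :=
    (intervalIntegral.integral_add_adjacent_intervals (hc.intervalIntegrable _ _)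
      (hc.intervalIntegrable _ _)).symm
  have h3 : ∫ α in (0 : ℝ)..(1 / h), min α (1 / h) * (nm γ α * K) =
      K * (N2 γ (1 / h) - N2 γ 0) := by
    have : ∫ α in (0 : ℝ)..(1 / h), min α (1 / h) * (nm γ α * K) =
        ∫ α in (0 : ℝ)..(1 / h), K * (α * nm γ α) := by
      apply intervalIntegral.integral_congr
      intro α hα
      rw [Set.uIcc_of_le hx0] at hα
      simp only
      rw [min_eq_left hα.2]
      ring
    rw [this, intervalIntegral.integral_const_mul,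
      intervalIntegral.integral_eq_sub_of_hasDerivAt (fun α _ => N2_deriv γ hγ α)]
    apply Continuous.intervalIntegrable
    have := nm_cont γ
    fun_prop
  have h4 : ∫ α in (1 / h : ℝ)..1, min α (1 / h) * (nm γ α * K) =
      (1 / h * K) * (N1 γ 1 - N1 γ (1 / h)) := by
    have : ∫ α in (1 / h : ℝ)..1, min α (1 / h) * (nm γ α * K) =
        ∫ α in (1 / h : ℝ)..1, (1 / h * K) * nm γ α := by
      apply intervalIntegral.integral_congr
      intro α hα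
      rw [Set.uIcc_of_le hx1] at hα
      simp only
      rw [min_eq_right hα.1]
      ring
    rw [this, intervalIntegral.integral_const_mul,
      intervalIntegral.integral_eq_sub_of_hasDerivAt (fun α _ => N1_deriv γ hγ α)]
    exact (nm_cont γ).intervalIntegrable _ _
  rw [h1, h2, h3, h4, hRw 0 le_rfl zero_le_one]
  unfold N1 N2 nm cN
  have a3 : γ * (1 - 0) = γ := by ring
  have a4 : γ * (1 - 1) = 0 := by ring
  have a5 : γ * 0 = 0 := by ring
  have a6 : γ * 1 = γ := by ring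
  have a7 : γ * (1 / h) = γ / h := by ring
  rw [a3, a4, a5, a6, a7, Real.sin_zero, Real.cos_zero, ← hK]
  have hxh : h * (1 / h) = 1 := by field_simp
  field_simp
  ring

/-- the Taylor polynomials -/
noncomputable def tC (x : ℝ) : ℝ := 1 - x ^ 2 / 2 + x ^ 4 / 24 - x ^ 6 / 720 + x ^ 8 / 40320 -
  x ^ 10 / 3628800 + x ^ 12 / 479001600

/-- the Taylor polynomials -/
noncomputable def tS (x : ℝ) : ℝ := x - x ^ 3 / 6 + x ^ 5 / 120 - x ^ 7 / 5040 + x ^ 9 / 362880 -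
  x ^ 11 / 39916800 + x ^ 13 / 6227020800

theorem trig_gen (x : ℝ) (hx0 : 0 ≤ x) (hx1 : x ≤ 2) :
    |Real.cos x - tC x| ≤ x ^ 14 / 40000000000 ∧ |Real.sin x - tS x| ≤ x ^ 14 / 40000000000 := by
  have hx : ‖(x : ℂ) * I‖ = x := by
    rw [norm_mul, Complex.norm_real, Complex.norm_I, mul_one, Real.norm_eq_abs, abs_of_nonneg hx0]
  have h := Complex.exp_bound' (x := (x : ℂ) * I) (n := 14) (by
    rw [hx]
    rw [div_le_div_iff₀ (by norm_num) (by norm_num)]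
    norm_num
    linarith)
  rw [hx] at h
  have hI2 : I ^ 2 = -1 := I_sq
  have hI3 : I ^ 3 = -I := by rw [pow_succ, hI2]; ring
  have hI4 : I ^ 4 = 1 := by rw [pow_succ, hI3]; ring_nf; rw [hI2]; ring
  have hI5 : I ^ 5 = I := by rw [pow_succ, hI4]; ring
  have hI6 : I ^ 6 = -1 := by rw [pow_succ, hI5, ← pow_two, hI2]
  have hI7 : I ^ 7 = -I := by rw [pow_succ, hI6]; ring
  have hI8 : I ^ 8 = 1 := by rw [pow_succ, hI7]; ring_nf; rw [hI2]; ring
  have hI9 : I ^ 9 = I := by rw [pow_succ, hI8]; ring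
  have hI10 : I ^ 10 = -1 := by rw [pow_succ, hI9, ← pow_two, hI2]
  have hI11 : I ^ 11 = -I := by rw [pow_succ, hI10]; ring
  have hI12 : I ^ 12 = 1 := by rw [pow_succ, hI11]; ring_nf; rw [hI2]; ring
  have hI13 : I ^ 13 = I := by rw [pow_succ, hI12]; ring
  have hsum : ∑ m ∈ Finset.range 14, ((x : ℂ) * I) ^ m / (m.factorial : ℂ) =
      ((tC x : ℝ) : ℂ) + ((tS x : ℝ) : ℂ) * I := by
    simp only [Finset.sum_range_succ, Finset.sum_range_zero, mul_pow, hI2, hI3, hI4, hI5, hI6, hI7,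
      hI8, hI9, hI10, hI11, hI12, hI13, Nat.factorial, tC, tS]
    push_cast
    ring
  rw [hsum, Complex.exp_ofReal_mul_I] at h
  have hre := (Complex.abs_re_le_norm _).trans h
  have him := (Complex.abs_im_le_norm _).trans h
  have e1 : ((((Real.cos x : ℝ) : ℂ) + ((Real.sin x : ℝ) : ℂ) * I -
      (((tC x : ℝ) : ℂ) + ((tS x : ℝ) : ℂ) * I))).re = Real.cos x - tC x := by
    rw [Complex.sub_re, Complex.add_re, Complex.add_re, Complex.re_ofReal_mul,
      Complex.re_ofReal_mul, Complex.I_re, Complex.ofReal_re, Complex.ofReal_re]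
    ring
  have e2 : ((((Real.cos x : ℝ) : ℂ) + ((Real.sin x : ℝ) : ℂ) * I -
      (((tC x : ℝ) : ℂ) + ((tS x : ℝ) : ℂ) * I))).im = Real.sin x - tS x := by
    rw [Complex.sub_im, Complex.add_im, Complex.add_im, Complex.im_ofReal_mul,
      Complex.im_ofReal_mul, Complex.I_im, Complex.ofReal_im, Complex.ofReal_im]
    ring
  rw [e1] at hre
  rw [e2] at him
  have hb : x ^ 14 / ((14 : ℕ).factorial : ℝ) * 2 ≤ x ^ 14 / 40000000000 := by
    have h1 : ((14 : ℕ).factorial : ℝ) = 87178291200 := by norm_num [Nat.factorial]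
    rw [h1]
    have h2 : 0 ≤ x ^ 14 := pow_nonneg hx0 14
    linarith
  exact ⟨hre.trans hb, him.trans hb⟩

/-- the closed form in terms of the half angle -/
theorem cN_half (h γ : ℝ) (hh : h ≠ 0) (hγ : γ ≠ 0) (hs : Real.sin (γ / 2) ≠ 0) :
    cN h γ = (γ ^ 2 / h + (2 * γ / h - 4 * h / γ) * (Real.sin (γ / 2) * Real.cos (γ / 2)) +
      2 * h * ((1 - 1 / h) * Real.cos (γ / h) - 1) +
      2 * h / γ * (2 * Real.sin (γ / h) + Real.sin (γ * (1 - 1 / h))) +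
      4 * Real.sin (γ / 2) ^ 2) / (8 * Real.sin (γ / 2) ^ 2) := by
  have hS : Real.sin γ = 2 * Real.sin (γ / 2) * Real.cos (γ / 2) := by
    rw [← Real.sin_two_mul]
    congr 1
    ring
  have hC : Real.cos γ = 1 - 2 * Real.sin (γ / 2) ^ 2 := by
    have : Real.cos γ = Real.cos (2 * (γ / 2)) := by
      congr 1
      ring
    rw [this, Real.cos_two_mul, Real.cos_sq']
    ring
  unfold cN
  rw [hS, hC]
  field_simp
  ring

theorem trig_num (x c₀ s₀ : ℝ) (hx0 : 0 ≤ x) (hx1 : x ≤ 2)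
    (h1 : c₀ - 1 / 10 ^ 8 + x ^ 14 / 40000000000 ≤ tC x)
    (h2 : tC x + x ^ 14 / 40000000000 ≤ c₀ + 1 / 10 ^ 8)
    (h3 : s₀ - 1 / 10 ^ 8 + x ^ 14 / 40000000000 ≤ tS x)
    (h4 : tS x + x ^ 14 / 40000000000 ≤ s₀ + 1 / 10 ^ 8) :
    (c₀ - 1 / 10 ^ 8 ≤ Real.cos x ∧ Real.cos x ≤ c₀ + 1 / 10 ^ 8) ∧
      s₀ - 1 / 10 ^ 8 ≤ Real.sin x ∧ Real.sin x ≤ s₀ + 1 / 10 ^ 8 := by
  obtain ⟨h5, h6⟩ := trig_gen x hx0 hx1
  rw [abs_le] at h5 h6
  refine ⟨⟨?_, ?_⟩, ?_, ?_⟩ <;> linarith [h5.1, h5.2, h6.1, h6.2]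

theorem mul_bds {s c s1 s2 c1 c2 : ℝ} (hs1 : s1 ≤ s) (hs2 : s ≤ s2) (hc1 : c1 ≤ c) (hc2 : c ≤ c2)
    (h1 : 0 ≤ s1) (h2 : 0 ≤ c1) : s1 * c1 ≤ s * c ∧ s * c ≤ s2 * c2 ∧ s1 ^ 2 ≤ s ^ 2 := by
  refine ⟨mul_le_mul hs1 hc1 h2 (h1.trans hs1), mul_le_mul hs2 hc2 (h2.trans hc1)
    (h1.trans (hs1.trans hs2)), pow_le_pow_left₀ h1 hs1 2⟩

theorem num2_a : cN 2 (9 / 4) ≤ 1.0678 := by
  obtain ⟨⟨hc1, hc2⟩, hs1, hs2⟩ := trig_num (9 / 8) 0.43117652 0.90226759 (by norm_num)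
    (by norm_num) (by norm_num [tC]) (by norm_num [tC]) (by norm_num [tS]) (by norm_num [tS])
  have e1 : (9 / 4 : ℝ) / 2 = 9 / 8 := by norm_num
  have e2 : (9 / 4 : ℝ) * (1 - 1 / 2) = 9 / 8 := by norm_num
  have hs0 : 0 < Real.sin (9 / 8) := by
    refine lt_of_lt_of_le ?_ hs1
    norm_num
  rw [cN_half 2 (9 / 4) (by norm_num) (by norm_num) (by rw [e1]; exact hs0.ne'), e1, e2]
  obtain ⟨m1, m2, m3⟩ := mul_bds hs1 hs2 hc1 hc2 (by norm_num) (by norm_num)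
  set s := Real.sin (9 / 8)
  set c := Real.cos (9 / 8)
  rw [div_le_iff₀ (by positivity)]
  norm_num at m1 m2 m3 hc1 hc2 hs1 hs2 ⊢
  linarith

theorem num2_b : cN (3 / 2) (39 / 20) ≤ 1.1344 := by
  obtain ⟨⟨hc1, hc2⟩, hs1, hs2⟩ := trig_num (39 / 40) 0.56116805 0.82770189 (by norm_num)
    (by norm_num) (by norm_num [tC]) (by norm_num [tC]) (by norm_num [tS]) (by norm_num [tS])
  obtain ⟨⟨hc3, hc4⟩, hs3, hs4⟩ := trig_num (13 / 10) 0.26749883 0.96355819 (by norm_num)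
    (by norm_num) (by norm_num [tC]) (by norm_num [tC]) (by norm_num [tS]) (by norm_num [tS])
  obtain ⟨⟨hc5, hc6⟩, hs5, hs6⟩ := trig_num (13 / 20) 0.79608380 0.60518641 (by norm_num)
    (by norm_num) (by norm_num [tC]) (by norm_num [tC]) (by norm_num [tS]) (by norm_num [tS])
  have e1 : (39 / 20 : ℝ) / 2 = 39 / 40 := by norm_num
  have e2 : (39 / 20 : ℝ) * (1 - 1 / (3 / 2)) = 13 / 20 := by norm_num
  have e3 : (39 / 20 : ℝ) / (3 / 2) = 13 / 10 := by norm_num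
  have hs0 : 0 < Real.sin (39 / 40) := by
    refine lt_of_lt_of_le ?_ hs1
    norm_num
  rw [cN_half (3 / 2) (39 / 20) (by norm_num) (by norm_num) (by rw [e1]; exact hs0.ne'), e1, e2,
    e3]
  obtain ⟨m1, m2, m3⟩ := mul_bds hs1 hs2 hc1 hc2 (by norm_num) (by norm_num)
  set s := Real.sin (39 / 40)
  set c := Real.cos (39 / 40)
  rw [div_le_iff₀ (by positivity)]
  norm_num at m1 m2 m3 hc1 hc2 hs1 hs2 hc3 hc4 hs3 hs4 hs5 hs6 ⊢
  linarith

theorem num2_c : cN (4 / 3) (9 / 5) ≤ 1.1757 := by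
  obtain ⟨⟨hc1, hc2⟩, hs1, hs2⟩ := trig_num (9 / 10) 0.62160997 0.78332691 (by norm_num)
    (by norm_num) (by norm_num [tC]) (by norm_num [tC]) (by norm_num [tS]) (by norm_num [tS])
  obtain ⟨⟨hc3, hc4⟩, hs3, hs4⟩ := trig_num (27 / 20) 0.21900669 0.97572336 (by norm_num)
    (by norm_num) (by norm_num [tC]) (by norm_num [tC]) (by norm_num [tS]) (by norm_num [tS])
  obtain ⟨⟨hc5, hc6⟩, hs5, hs6⟩ := trig_num (9 / 20) 0.90044710 0.43496553 (by norm_num)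
    (by norm_num) (by norm_num [tC]) (by norm_num [tC]) (by norm_num [tS]) (by norm_num [tS])
  have e1 : (9 / 5 : ℝ) / 2 = 9 / 10 := by norm_num
  have e2 : (9 / 5 : ℝ) * (1 - 1 / (4 / 3)) = 9 / 20 := by norm_num
  have e3 : (9 / 5 : ℝ) / (4 / 3) = 27 / 20 := by norm_num
  have hs0 : 0 < Real.sin (9 / 10) := by
    refine lt_of_lt_of_le ?_ hs1
    norm_num
  rw [cN_half (4 / 3) (9 / 5) (by norm_num) (by norm_num) (by rw [e1]; exact hs0.ne'), e1, e2,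
    e3]
  obtain ⟨m1, m2, m3⟩ := mul_bds hs1 hs2 hc1 hc2 (by norm_num) (by norm_num)
  set s := Real.sin (9 / 10)
  set c := Real.cos (9 / 10)
  rw [div_le_iff₀ (by positivity)]
  norm_num at m1 m2 m3 hc1 hc2 hs1 hs2 hc3 hc4 hs3 hs4 hs5 hs6 ⊢
  linarith

theorem num2_main : S_num2 := ⟨num2_a, num2_b, num2_c⟩

end Pool.Agent.H30.OZ
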