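import Pool.Agent.H558.PP.CStm

set_option autoImplicit false

/-! # Points of one window (S_E4 and S_E4') -/

namespace Pool.Agent.H30.PPE4

open Finset Pool.Agent.H558.PP

theorem unit24 (k : ℕ) (a : ZMod (2 ^ k)) : IsUnit (1 - 24 * a) := by
  apply IsNilpotent.isUnit_one_sub
  refine ⟨k, ?_⟩
  rw [mul_pow]
  have h : ((24 : ZMod (2 ^ k))) ^ k = 0 := by
    have h1 : ((24 ^ k : ℕ) : ZMod (2 ^ k)) = 0 := by
      rw [ZMod.natCast_eq_zero_iff]
      exact pow_dvd_pow_of_dvd (by norm_num) k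
    rw [Nat.cast_pow] at h1
    exact h1
  rw [h, zero_mul]

theorem II_inj (k : ℕ) (n a t b b' : ZMod (2 ^ k)) (h : II k n a (t, b) = II k n a (t, b')) :
    b = b' := by
  apply (unit24 k a).mul_left_cancel
  unfold II at h
  simp only at h
  linear_combination h

theorem II_surj (k : ℕ) (n a t r : ZMod (2 ^ k)) : ∃ b, II k n a (t, b) = r := by
  obtain ⟨u, hu⟩ := unit24 k a
  refine ⟨↑u⁻¹ * (r + n - a * t), ?_⟩
  unfold II
  simp only
  have h : (1 - 24 * a) * (↑u⁻¹ * (r + n - a * t)) = r + n - a * t := by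
    rw [← hu, ← mul_assoc, Units.mul_inv, one_mul]
  linear_combination h

theorem cc_II {L k : ℕ} (h : k ≤ L) (n a : ZMod (2 ^ L)) (p : ZMod (2 ^ L) × ZMod (2 ^ L)) :
    cc h (II L n a p) = II k (cc h n) (cc h a) (cc h p.1, cc h p.2) := by
  unfold II
  simp only [map_sub, map_add, map_mul, map_ofNat]

theorem cc_val {L k : ℕ} (h : k ≤ L) (y : ZMod (2 ^ L)) : (cc h y).val = y.val % 2 ^ k := by
  rw [ZMod.castHom_apply, ZMod.cast_eq_val, ZMod.val_natCast]

theorem mod_mod_pow {w k : ℕ} (h : w ≤ k) (x : ℕ) : x % 2 ^ k % 2 ^ w = x % 2 ^ w :=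
  Nat.mod_mod_of_dvd x (pow_dvd_pow 2 h)

/-- the fibres of the reduction -/
theorem fib {L k : ℕ} (h : k ≤ L) (c : ZMod (2 ^ k)) :
    #{t : ZMod (2 ^ L) | cc h t = c} = 2 ^ (L - k) := by
  have hs : Function.Surjective (cc h) := ZMod.castHom_surjective _
  have heq : ∀ d : ZMod (2 ^ k),
      #{t : ZMod (2 ^ L) | cc h t = d} = #{t : ZMod (2 ^ L) | cc h t = c} := fun d =>
    AddMonoidHom.card_fiber_eq_of_mem_range (cc h).toAddMonoidHom (hs d) (hs c)
  have hsum := Finset.card_eq_sum_card_fiberwise (f := cc h) (s := univ) (t := univ)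
    (fun x _ => Finset.mem_coe.2 (Finset.mem_univ _))
  rw [Finset.card_univ, ZMod.card, Finset.sum_congr rfl (fun d _ => heq d), Finset.sum_const,
    Finset.card_univ, ZMod.card, smul_eq_mul] at hsum
  have h2 : 2 ^ L = 2 ^ k * 2 ^ (L - k) := by
    rw [← pow_add, Nat.add_sub_cancel' h]
  exact Nat.eq_of_mul_eq_mul_left (pow_pos (by norm_num : 0 < 2) k) (by rw [← hsum, h2])

/-- `Fa` goes down -/
theorem Fa_down {L k w : ℕ} (hk : k ≤ L) (hw : w ≤ k) (n a : ZMod (2 ^ L))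
    (S : Finset (ℕ × ℕ)) (hS : S ⊆ range (2 ^ w) ×ˢ range (2 ^ w))
    (p : ZMod (2 ^ L) × ZMod (2 ^ L)) (hp : Fa L w n a S p) :
    Fa k w (cc hk n) (cc hk a) S (cc hk p.1, cc hk p.2) ∧
      (II L n a p).val = (II k (cc hk n) (cc hk a) (cc hk p.1, cc hk p.2)).val := by
  have h1 := hS hp
  rw [Finset.mem_product, Finset.mem_range, Finset.mem_range] at h1
  have h2 : (II L n a p).val < 2 ^ k := h1.2.trans_le (Nat.pow_le_pow_right (by norm_num) hw)
  have h3 : (II L n a p).val = (II k (cc hk n) (cc hk a) (cc hk p.1, cc hk p.2)).val := by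
    rw [← cc_II, cc_val, Nat.mod_eq_of_lt h2]
  refine ⟨?_, h3⟩
  show ((cc hk p.1).val % 2 ^ w, (II k (cc hk n) (cc hk a) (cc hk p.1, cc hk p.2)).val) ∈ S
  rw [← h3, cc_val, mod_mod_pow hw]
  exact hp

theorem e4 : S_E4 := by
  intro L k w hk hw n a S hS ν
  split_ifs with hF
  · rw [← fib hk ν.1]
    refine Finset.card_bij (fun p _ => p.1) ?_ ?_ ?_
    · intro p hp
      rw [Finset.mem_filter] at hp ⊢
      exact ⟨Finset.mem_univ _, hp.2.1⟩
    · rintro ⟨t, b⟩ hp ⟨t', b'⟩ hp' htt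
      rw [Finset.mem_filter] at hp hp'
      obtain ⟨-, h1, h2, h3⟩ := hp
      obtain ⟨-, h1', h2', h3'⟩ := hp'
      simp only at h1 h2 h1' h2' htt
      subst htt
      have e1 := (Fa_down hk hw n a S hS _ h3).2
      have e2 := (Fa_down hk hw n a S hS _ h3').2
      simp only [h1, h2, h2'] at e1 e2
      have e3 : II L n a (t, b) = II L n a (t, b') := ZMod.val_injective _ (e1.trans e2.symm)
      rw [II_inj L n a t b b' e3]
    · intro t ht
      rw [Finset.mem_filter] at ht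
      have ht2 := ht.2
      obtain ⟨b, hb⟩ := II_surj L n a t (((II k (cc hk n) (cc hk a) ν).val : ℕ) : ZMod (2 ^ L))
      have hb1 : II k (cc hk n) (cc hk a) (cc hk t, cc hk b) = II k (cc hk n) (cc hk a) ν := by
        have e1 := cc_II hk n a (t, b)
        rw [hb, map_natCast, ZMod.natCast_zmod_val] at e1
        exact e1.symm
      have hb2 : cc hk b = ν.2 := by
        rw [ht2] at hb1
        exact II_inj k _ _ ν.1 _ _ hb1
      refine ⟨(t, b), ?_, rfl⟩
      rw [Finset.mem_filter]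
      refine ⟨Finset.mem_univ _, ht2, hb2, ?_⟩
      have hr := hS hF
      rw [Finset.mem_product, Finset.mem_range, Finset.mem_range] at hr
      have hr2 : (II k (cc hk n) (cc hk a) ν).val < 2 ^ L :=
        hr.2.trans_le (Nat.pow_le_pow_right (by norm_num) (hw.trans hk))
      show (t.val % 2 ^ w, (II L n a (t, b)).val) ∈ S
      rw [hb, ZMod.val_natCast, Nat.mod_eq_of_lt hr2, ← mod_mod_pow hw, ← cc_val hk, ht2]
      exact hF
  · rw [Finset.card_eq_zero, Finset.filter_eq_empty_iff]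
    rintro ⟨t, b⟩ - ⟨h1, h2, h3⟩
    apply hF
    have e1 := (Fa_down hk hw n a S hS _ h3).1
    simp only at h1 h2
    simp only [h1, h2] at e1
    exact e1

theorem base_card (w : ℕ) (n a : ZMod (2 ^ w)) (S : Finset (ℕ × ℕ))
    (hS : S ⊆ range (2 ^ w) ×ˢ range (2 ^ w)) :
    #{ν : ZMod (2 ^ w) × ZMod (2 ^ w) | Fa w w n a S ν} = #S := by
  have hmod : ∀ t : ZMod (2 ^ w), t.val % 2 ^ w = t.val := fun t =>
    Nat.mod_eq_of_lt (ZMod.val_lt t)
  refine Finset.card_bij (fun ν _ => (ν.1.val % 2 ^ w, (II w n a ν).val)) ?_ ?_ ?_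
  · intro ν hν
    rw [Finset.mem_filter] at hν
    exact hν.2
  · rintro ⟨t, b⟩ - ⟨t', b'⟩ - h
    simp only [hmod, Prod.mk.injEq] at h
    have h1 : t = t' := ZMod.val_injective _ h.1
    subst h1
    rw [II_inj w n a t b b' (ZMod.val_injective _ h.2)]
  · rintro ⟨x, y⟩ hxy
    have h1 := hS hxy
    rw [Finset.mem_product, Finset.mem_range, Finset.mem_range] at h1
    obtain ⟨b, hb⟩ := II_surj w n a (x : ZMod (2 ^ w)) (y : ZMod (2 ^ w))
    have e : ((((x : ZMod (2 ^ w)), b) : ZMod (2 ^ w) × ZMod (2 ^ w)).1.val % 2 ^ w,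
        (II w n a ((x : ZMod (2 ^ w)), b)).val) = (x, y) := by
      rw [hb, ZMod.val_natCast, ZMod.val_natCast, Nat.mod_mod, Nat.mod_eq_of_lt h1.1,
        Nat.mod_eq_of_lt h1.2]
    refine ⟨((x : ZMod (2 ^ w)), b), ?_, e⟩
    rw [Finset.mem_filter]
    refine ⟨Finset.mem_univ _, ?_⟩
    show _ ∈ S
    rw [e]
    exact hxy

theorem e4' : S_E4' := by
  intro L w hw n a S hS
  have h1 := Finset.card_eq_sum_card_fiberwise
    (f := fun p : ZMod (2 ^ L) × ZMod (2 ^ L) => (cc hw p.1, cc hw p.2))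
    (s := {p : ZMod (2 ^ L) × ZMod (2 ^ L) | Fa L w n a S p}) (t := univ)
    (fun x _ => Finset.mem_coe.2 (Finset.mem_univ _))
  rw [h1]
  have h2 : ∀ ν : ZMod (2 ^ w) × ZMod (2 ^ w),
      #{p ∈ ({p : ZMod (2 ^ L) × ZMod (2 ^ L) | Fa L w n a S p} : Finset _) |
        (cc hw p.1, cc hw p.2) = ν} =
      if Fa w w (cc hw n) (cc hw a) S ν then 2 ^ (L - w) else 0 := by
    intro ν
    rw [← e4 L w w hw le_rfl n a S hS ν, Finset.filter_filter]
    refine congrArg Finset.card (Finset.filter_congr fun p _ => ?_)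
    constructor
    · rintro ⟨h3, h4⟩
      exact ⟨congrArg Prod.fst h4, congrArg Prod.snd h4, h3⟩
    · rintro ⟨h3, h4, h5⟩
      exact ⟨h5, Prod.ext h3 h4⟩
  rw [Finset.sum_congr rfl fun ν _ => h2 ν, ← Finset.sum_filter, Finset.sum_const, smul_eq_mul,
    base_card w _ _ S hS, mul_comm]

end Pool.Agent.H30.PPE4
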