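import Pool.Agent.H812.SF.Stm2

/-!
SF-TR1 (helper30): transfer of one domain from `ℂ` to the Euclidean plane (adapted from the library
file N229/SC/TR.lean).
-/

open MeasureTheory Set Filter Topology

set_option autoImplicit false

namespace Pool.Agent.H30.SfTR1

open Pool.Agent.N229.SC Pool.Agent.H812.SF

/-- the isometry -/
private noncomputable def tJ : ℂ ≃ₗᵢ[ℝ] E2 := Complex.orthonormalBasisOneI.repr

private lemma tJ_eq : (fun z : ℂ => (!₂[z.re, z.im] : E2)) = tJ := by
  funext z
  ext i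
  fin_cases i <;> simp [tJ]

private lemma tr_mp : MeasurePreserving tJ volume volume := tJ.measurePreserving

private lemma tr_me : MeasurableEmbedding tJ := tJ.toHomeomorph.measurableEmbedding

private lemma tr_fd {φ : E2 → ℝ} (h : ContDiff ℝ 1 φ) (y v : ℂ) :
    fderiv ℝ (fun z => φ (tJ z)) y v = fderiv ℝ φ (tJ y) (tJ v) := by
  have h1 : HasFDerivAt φ (fderiv ℝ φ (tJ y)) (tJ y) :=
    (h.differentiable (by norm_num) _).hasFDerivAt
  have h2 : HasFDerivAt (fun z : ℂ => tJ z) (tJ.toContinuousLinearEquiv : ℂ →L[ℝ] E2) y :=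
    (tJ.toContinuousLinearEquiv : ℂ →L[ℝ] E2).hasFDerivAt
  have h3 : HasFDerivAt (fun z => φ (tJ z))
      ((fderiv ℝ φ (tJ y)).comp (tJ.toContinuousLinearEquiv : ℂ →L[ℝ] E2)) y := h1.comp y h2
  rw [h3.fderiv]
  rfl

/-- **SF-TR1** -/
theorem proof_TR1 : S_TR1 := by
  rintro Om lam c u G hO hb hc hs ⟨hf⟩ hL hnb ⟨hu, hG, w1, w2, hne⟩
  rw [tJ_eq]
  have pre : tJ.symm ⁻¹' Om = tJ '' Om := (tJ.image_eq_preimage_symm Om).symm
  have mps : MeasurePreserving tJ.symm (volume.restrict (tJ '' Om)) (volume.restrict Om) := by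
    have h1 : MeasurePreserving tJ.symm (volume : Measure E2) (volume : Measure ℂ) :=
      tJ.symm.measurePreserving
    have h2 := h1.restrict_preimage_emb tJ.symm.toHomeomorph.measurableEmbedding Om
    rwa [pre] at h2
  refine ⟨⟨tJ.toHomeomorph.isOpenMap _ hO, tJ.lipschitz.isBounded_image hb,
    hc.image _ tJ.continuous.continuousOn, ?_, ?_, ?_⟩, ?_,
    ⟨c, fun x => u (tJ.symm x), fun x => tJ (G (tJ.symm x)), ?_, ?_, ?_, ?_, ?_⟩, ?_⟩
  · have h1 : Om ≃ₜ (tJ '' Om) := tJ.toHomeomorph.image Om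
    exact h1.symm.toHomotopyEquiv.simplyConnectedSpace
  · have e1 : tJ '' frontier Om = frontier (tJ '' Om) := tJ.toHomeomorph.image_frontier Om
    have e2 : tJ '' Metric.sphere 0 1 = Metric.sphere 0 1 := by
      rw [tJ.image_sphere, map_zero]
    have h1 : frontier Om ≃ₜ (tJ '' frontier Om) := tJ.toHomeomorph.image (frontier Om)
    have h2 : Metric.sphere (0 : ℂ) 1 ≃ₜ (tJ '' Metric.sphere (0 : ℂ) 1) :=
      tJ.toHomeomorph.image (Metric.sphere (0 : ℂ) 1)
    exact ⟨((Homeomorph.setCongr e1).symm.trans h1.symm).trans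
      (hf.trans (h2.trans (Homeomorph.setCongr e2)))⟩
  · intro p hp
    have e1 : tJ '' frontier Om = frontier (tJ '' Om) := tJ.toHomeomorph.image_frontier Om
    rw [← e1] at hp
    obtain ⟨q, hq, rfl⟩ := hp
    obtain ⟨e, g, he, hg, heg, s, hs, K, γ, hγ, h⟩ := hL q hq
    refine ⟨tJ e, tJ g, by rwa [tJ.norm_map], by rwa [tJ.norm_map],
      by rwa [tJ.inner_map_map], s, hs, K, γ, hγ, fun x hx => ?_⟩
    obtain ⟨y, rfl⟩ := tJ.surjective x
    rw [tJ.inner_map_map, tJ.inner_map_map, tJ.injective.mem_set_image]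
    refine h y ?_
    rw [Metric.mem_ball, tJ.dist_map] at hx
    exact hx
  · rintro ⟨a, r, har⟩
    refine hnb (tJ.symm a) r ?_
    have h1 := congrArg (fun s => tJ.symm '' s) har
    simp only [tJ.symm.image_ball] at h1
    rw [← h1, image_image]
    simp only [tJ.symm_apply_apply, image_id']
  · exact hu.comp_measurePreserving mps
  · have h1 := hG.comp_measurePreserving mps
    exact (tJ.toContinuousLinearEquiv : ℂ →L[ℝ] E2).comp_memLp' h1
  · intro φ hφ hφ' v
    rw [tr_mp.setIntegral_image_emb tr_me, tr_mp.setIntegral_image_emb tr_me]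
    have h1 : ContDiff ℝ 1 (fun z => φ (tJ z)) := hφ.comp tJ.contDiff
    have h2 : HasCompactSupport (fun z => φ (tJ z)) :=
      hφ'.comp_homeomorph tJ.toHomeomorph
    have h3 := w1 _ h1 h2 (tJ.symm v)
    simp only [tr_fd hφ, tJ.apply_symm_apply] at h3
    simp only [tJ.symm_apply_apply]
    rw [h3]
    congr 1
    refine integral_congr_ae (Eventually.of_forall fun x => ?_)
    simp only
    rw [← tJ.inner_map_map, tJ.apply_symm_apply]
  · intro φ hφ hφ'
    rw [tr_mp.setIntegral_image_emb tr_me, tr_mp.setIntegral_image_emb tr_me]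
    have h1 : ContDiff ℝ 1 (fun z => φ (tJ z)) := hφ.comp tJ.contDiff
    have h2 : HasCompactSupport (fun z => φ (tJ z)) :=
      hφ'.comp_homeomorph tJ.toHomeomorph
    have h3 := w2 _ h1 h2
    simp only [tr_fd hφ] at h3
    simp only [tJ.symm_apply_apply]
    exact h3
  · intro h1
    refine hne ?_
    have h2 : MeasurePreserving tJ (volume.restrict Om) (volume.restrict (tJ '' Om)) :=
      tr_mp.restrict_image_emb tr_me Om
    have h3 := h2.quasiMeasurePreserving.ae h1
    filter_upwards [h3] with x hx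
    simpa using hx
  · intro s
    have hball : tJ '' Metric.ball (0 : ℂ) s = Metric.ball (0 : E2) s := by
      rw [tJ.image_ball, map_zero]
    exact ⟨fun h => hball ▸ image_mono h, fun h => hball ▸ image_mono h⟩

end Pool.Agent.H30.SfTR1
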