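import Pool.Agent.H676.So.Stm

set_option autoImplicit false

/-!
# A right-hand side far from all bijections
-/

namespace Pool.Agent.H30.WS

open Finset Pool.Agent.W893.PR Pool.Agent.H676.GI Pool.Agent.H676.GI.Blk Pool.Agent.H676.So

variable {M d N : ℕ} {P : Type}

theorem gg_adj {Q : Sys (Fin N ⊕ Fin N) M d} {x y : Fin M → Fin N}
    {α : Fin N ⊕ Fin N → P → Prop} {β : P → P → Prop}
    (h0 : ∀ e, Q.ends e 0 = .inl (x e)) (h1 : ∀ e, Q.ends e 1 = .inr (y e))
    (hinj : ∀ e e', x e = x e' → y e = y e' → e = e') (s : Fin M → ZMod 2) (e : Fin M)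
    (u v : F2 d) :
    (GG Q s α β).Adj (.inl (.inl (x e), u)) (.inl (.inr (y e), v)) ↔
      Q.vec e 0 ⬝ᵥ u + Q.vec e 1 ⬝ᵥ v = s e := by
  change (_ ∧ (_ ∨ _)) ↔ _
  constructor
  · rintro ⟨_, ⟨e', h2, h3, h4⟩ | ⟨e', h2, h3, h4⟩⟩
    · rw [h0] at h2
      rw [h1] at h3
      simp only [Sum.inl.injEq, Sum.inr.injEq] at h2 h3
      have := hinj e' e h2 h3
      subst this
      exact h4
    · rw [h0] at h2
      simp at h2
  · intro h
    refine ⟨by simp, Or.inl ⟨e, h0 e, h1 e, h⟩⟩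

/-- the number of triples with a misplaced vertex, counted by the degree -/
theorem card_mis_le {T : Type} [DecidableEq T] (D h : ℕ) (z : Fin M → T)
    (hz : ∀ t, (univ.filter fun e => z e = t).card ≤ 2 * h) (U V : Type) [Fintype U] [Fintype V]
    [DecidableEq U] [DecidableEq V] (hV : Fintype.card V = D) (A : Finset (T × U))
    (S : Finset ((U × V) × Fin M)) (hS : ∀ w ∈ S, (z w.2, w.1.1) ∈ A) :
    S.card ≤ 2 * h * D * A.card := by
  refine Finset.card_le_mul_card_image_of_maps_to (f := fun w => (z w.2, w.1.1)) hS _ ?_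
  rintro ⟨t, u⟩ _
  have h1 : (S.filter fun w => (z w.2, w.1.1) = (t, u)).card ≤
      ((univ.filter fun e => z e = t) ×ˢ (univ : Finset V)).card := by
    refine Finset.card_le_card_of_injOn (fun w => (w.2, w.1.2)) ?_ ?_
    · intro w hw
      rw [Finset.mem_coe, mem_filter, Prod.mk.injEq] at hw
      rw [Finset.mem_coe, mem_product, mem_filter]
      exact ⟨⟨mem_univ _, hw.2.1⟩, mem_univ _⟩
    · rintro ⟨⟨a, b⟩, e⟩ hw ⟨⟨a', b'⟩, e'⟩ hw' heq
      rw [Finset.mem_coe, mem_filter, Prod.mk.injEq] at hw hw'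
      simp only [Prod.mk.injEq] at heq hw hw'
      obtain ⟨h2, h3⟩ := heq
      subst h2 h3
      rw [hw.2.2, hw'.2.2]
  refine h1.trans ?_
  rw [card_product, card_univ, hV]
  exact Nat.mul_le_mul_right _ (hz t)

theorem t_FAR : S_FAR := by
  classical
  intro N M d h Q x y P _ α β h0 h1 hinj hdx hdy hN hd hdh hM
  have hlog : Real.log (Fintype.card ((F2 d × F2 d) × (Fin N ⊕ Fin N → F2 d))) < M / 8 := by
    have e1 : Fintype.card ((F2 d × F2 d) × (Fin N ⊕ Fin N → F2 d)) = 2 ^ (2 * d + 2 * N * d) := by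
      simp only [Fintype.card_prod, Fintype.card_fun, Fintype.card_sum, Fintype.card_fin,
        ZMod.card]
      rw [← pow_mul, ← pow_add, ← pow_add]
      congr 1
      ring
    rw [e1]
    push_cast
    rw [Real.log_pow]
    have h2 : Real.log 2 < 1 := by
      have := Real.log_two_lt_d9
      linarith
    have h3 : (0 : ℝ) < ((2 * d + 2 * N * d : ℕ) : ℝ) := by
      have : 0 < 2 * d + 2 * N * d := by omega
      exact_mod_cast this
    have h4 : 8 * (2 * d + 2 * N * d) ≤ M := by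
      have h5 : N * (64 * d) ≤ N * h := Nat.mul_le_mul_left _ hdh
      have h6 : 1 * d ≤ N * d := Nat.mul_le_mul_right _ hN
      nlinarith
    have h5 : (8 : ℝ) * ((2 * d + 2 * N * d : ℕ) : ℝ) ≤ M := by exact_mod_cast h4
    nlinarith
  obtain ⟨s, hs⟩ := exists_far_gen (M := M) (I := (F2 d × F2 d) × (Fin N ⊕ Fin N → F2 d))
    (fun i e => Q.vec e 0 ⬝ᵥ i.1.1 + Q.vec e 1 ⬝ᵥ i.1.2 +
      chd ((GG Q 0 α β).Adj (.inl (.inl (x e), i.2 (.inl (x e))))
        (.inl (.inr (y e), i.2 (.inr (y e)))))) hlog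
  refine ⟨s, fun f => ?_⟩
  obtain ⟨loc, hloc⟩ : ∃ loc : (Fin N ⊕ Fin N) × F2 d → F2 d, ∀ p,
      (∃ a : F2 d, f (.inl p) = .inl (p.1, a)) → f (.inl p) = .inl (p.1, loc p) := by
    refine ⟨fun p => if h : ∃ a : F2 d, f (.inl p) = .inl (p.1, a) then h.choose else 0, ?_⟩
    intro p hp
    simp only [dif_pos hp]
    exact hp.choose_spec
  obtain ⟨Mi, hMi⟩ : ∃ Mi : Finset ((Fin N ⊕ Fin N) × F2 d), Mi = univ.filter fun p =>
      ∀ a : F2 d, f (.inl p) ≠ .inl (p.1, a) := ⟨_, rfl⟩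
  have hmis : mis f = Mi.card := by
    unfold mis
    rw [Set.ncard_eq_toFinset_card', hMi]
    congr 1
    ext p
    simp
  have hnot : ∀ p, p ∉ Mi → f (.inl p) = .inl (p.1, loc p) := by
    intro p hp
    apply hloc
    by_contra hcon
    apply hp
    rw [hMi, mem_filter]
    exact ⟨mem_univ _, fun a ha => hcon ⟨a, ha⟩⟩
  obtain ⟨S1, hS1⟩ : ∃ S : Finset ((F2 d × F2 d) × Fin M), S = univ.filter fun w =>
      ¬ ((GG Q s α β).Adj (.inl (.inl (x w.2), w.1.1)) (.inl (.inr (y w.2), w.1.2)) ↔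
        (GG Q 0 α β).Adj (f (.inl (.inl (x w.2), w.1.1))) (f (.inl (.inr (y w.2), w.1.2)))) :=
    ⟨_, rfl⟩
  obtain ⟨S2, hS2⟩ : ∃ S : Finset ((F2 d × F2 d) × Fin M), S = univ.filter fun w =>
      ((Sum.inl (x w.2), w.1.1) : (Fin N ⊕ Fin N) × F2 d) ∈ Mi := ⟨_, rfl⟩
  obtain ⟨S3, hS3⟩ : ∃ S : Finset ((F2 d × F2 d) × Fin M), S = univ.filter fun w =>
      ((Sum.inr (y w.2), w.1.2) : (Fin N ⊕ Fin N) × F2 d) ∈ Mi := ⟨_, rfl⟩
  have key : ∀ u v : F2 d, M ≤ 4 * (univ.filter fun e : Fin M =>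
      ((u, v), e) ∈ S1 ∪ (S2 ∪ S3)).card := by
    intro u v
    refine (hs ((u, v), Sum.elim (fun i => loc (.inl i, u)) (fun j => loc (.inr j, v)))).trans
      (Nat.mul_le_mul_left _ (Finset.card_le_card ?_))
    intro e he
    rw [mem_filter] at he ⊢
    refine ⟨mem_univ _, ?_⟩
    by_contra hcon
    rw [mem_union, mem_union, not_or, not_or] at hcon
    obtain ⟨c1, c2, c3⟩ := hcon
    rw [hS1, mem_filter, not_and, not_not] at c1
    rw [hS2, mem_filter, not_and] at c2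
    rw [hS3, mem_filter, not_and] at c3
    have c1' := c1 (mem_univ _)
    have c2' := hnot _ (c2 (mem_univ _))
    have c3' := hnot _ (c3 (mem_univ _))
    simp only at c1' c2' c3'
    rw [gg_adj h0 h1 hinj, c2', c3'] at c1'
    apply he.2
    simp only [Sum.elim_inl, Sum.elim_inr]
    by_cases hH : (GG Q 0 α β).Adj (.inl (.inl (x e), loc (.inl (x e), u)))
        (.inl (.inr (y e), loc (.inr (y e), v)))
    · rw [chd_pos hH, add_zero]
      exact (c1'.2 hH).symm
    · rw [chd_neg hH]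
      have h2 : Q.vec e 0 ⬝ᵥ u + Q.vec e 1 ⬝ᵥ v ≠ s e := fun h => hH (c1'.1 h)
      revert h2
      generalize Q.vec e 0 ⬝ᵥ u + Q.vec e 1 ⬝ᵥ v = p
      generalize s e = p'
      revert p p'
      decide
  have hcF : Fintype.card (F2 d) = 2 ^ d := by
    simp only [Fintype.card_fun, Fintype.card_fin, ZMod.card]
  have h2 : M * 4 ^ d ≤ 4 * (S1 ∪ (S2 ∪ S3)).card := by
    have h3 : (S1 ∪ (S2 ∪ S3)).card = ∑ p : F2 d × F2 d, (univ.filter fun e : Fin M =>
        (p, e) ∈ S1 ∪ (S2 ∪ S3)).card := by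
      have h4 : (S1 ∪ (S2 ∪ S3)) = univ.filter fun w : (F2 d × F2 d) × Fin M =>
          w ∈ S1 ∪ (S2 ∪ S3) := by
        ext w
        simp
      rw [h4, Finset.card_filter, Fintype.sum_prod_type]
      refine Finset.sum_congr rfl fun p _ => ?_
      rw [Finset.card_filter, ← h4]
    rw [h3, Finset.mul_sum]
    calc M * 4 ^ d = ∑ _p : F2 d × F2 d, M := by
          rw [Finset.sum_const, Finset.card_univ, smul_eq_mul, mul_comm]
          congr 1
          rw [Fintype.card_prod, hcF, ← mul_pow]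
          norm_num
      _ ≤ _ := Finset.sum_le_sum fun p _ => key p.1 p.2
  have hb1 : S1.card ≤ mism (GG Q s α β) (GG Q 0 α β) f := by
    rw [mism_eq_card, hS1]
    refine Finset.card_le_card_of_injOn (fun w : (F2 d × F2 d) × Fin M =>
      ((.inl (.inl (x w.2), w.1.1), .inl (.inr (y w.2), w.1.2)) :
        VG (Fin N ⊕ Fin N) d P × VG (Fin N ⊕ Fin N) d P)) ?_ ?_
    · intro w hw
      rw [Finset.mem_coe, mem_filter] at hw ⊢
      exact ⟨mem_univ _, hw.2⟩
    · rintro ⟨⟨u, v⟩, e⟩ _ ⟨⟨u', v'⟩, e'⟩ _ h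
      simp only [Prod.mk.injEq, Sum.inl.injEq, Sum.inr.injEq] at h
      obtain ⟨⟨h3, h4⟩, h5, h6⟩ := h
      have := hinj e e' h3 h5
      subst this
      rw [h4, h6]
  have hb2 : S2.card ≤ 2 * h * 2 ^ d * (Mi.filter fun p => p.1.isLeft = true).card := by
    refine card_mis_le (T := Fin N ⊕ Fin N) (2 ^ d) h (fun e => Sum.inl (x e)) ?_ (F2 d) (F2 d)
      hcF _ _ ?_
    · rintro (i | j)
      · simp only [Sum.inl.injEq]
        exact hdx i
      · simp
    · intro w hw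
      rw [hS2, mem_filter] at hw
      rw [mem_filter]
      exact ⟨hw.2, rfl⟩
  have hb3 : S3.card ≤ 2 * h * 2 ^ d * (Mi.filter fun p => ¬ p.1.isLeft = true).card := by
    have h3 : (S3.image fun w => ((w.1.2, w.1.1), w.2)).card = S3.card := by
      apply Finset.card_image_of_injective
      rintro ⟨⟨u, v⟩, e⟩ ⟨⟨u', v'⟩, e'⟩ h
      simp only [Prod.mk.injEq] at h ⊢
      tauto
    rw [← h3]
    refine card_mis_le (T := Fin N ⊕ Fin N) (2 ^ d) h (fun e => Sum.inr (y e)) ?_ (F2 d) (F2 d)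
      hcF _ _ ?_
    · rintro (i | j)
      · simp
      · simp only [Sum.inr.injEq]
        exact hdy j
    · intro w hw
      rw [mem_image] at hw
      obtain ⟨w', hw', rfl⟩ := hw
      rw [hS3, mem_filter] at hw'
      rw [mem_filter]
      exact ⟨hw'.2, by simp⟩
  have hsum := Finset.card_filter_add_card_filter_not (s := Mi) (fun p => p.1.isLeft = true)
  have hun : (S1 ∪ (S2 ∪ S3)).card ≤ S1.card + (S2.card + S3.card) :=
    (Finset.card_union_le _ _).trans (Nat.add_le_add_left (Finset.card_union_le _ _) _)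
  refine h2.trans (Nat.mul_le_mul_left _ ?_)
  rw [hmis, ← hsum, Nat.mul_add]
  omega

end Pool.Agent.H30.WS
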